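import Pool.Agent.Lib_helper63.AdamData

/-!
# The reversal of any arc raises the number of directed cycles by at least 50
-/

set_option autoImplicit false
set_option linter.unusedSectionVars false

namespace Pool.Agent.Lib_helper22.Adam

open Finset Pool.Agent.Lib_helper63.AdamCount

section general

variable {V : Type} [DecidableEq V] [Fintype V]

/-- The comparison of the numbers of cycles. -/
lemma ncard_add_le (m : ℕ) (nb : V → List V) (hnb : ∀ x, (nb x).Nodup) (hloop : ∀ x, x ∉ nb x)
    (E : Finset (V × V)) (hE : ∀ x y, (x, y) ∈ E ↔ y ∈ nb x) (u v : V) (huv : v ∈ nb u)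
    (f : ℕ) (hf : Fintype.card V ≤ f)
    (hcount : cntL nb u f v [v] + 1 + m ≤ cntL nb v (f + 1) u [u]) :
    {S | IsCyc Prod.fst Prod.snd E S}.ncard + m ≤ {S | IsCyc (sE (u, v)) (tE (u, v)) E S}.ncard := by
  have hX : {S | IsCyc Prod.fst Prod.snd E S} =
      {S | IsCyc Prod.fst Prod.snd E S ∧ (u, v) ∉ S} ∪ ↑(Fam E (u, v) [v]) := by
    ext S
    simp only [Set.mem_union, Set.mem_ofPred_eq, Finset.mem_coe, mem_Fam]
    constructor
    · intro h
      by_cases he : (u, v) ∈ S
      · exact Or.inr ⟨h, he, by simp [arcsR]⟩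
      · exact Or.inl ⟨h, he⟩
    · rintro (h | h)
      · exact h.1
      · exact h.1
  have hY : {S | IsCyc Prod.fst Prod.snd E S ∧ (u, v) ∉ S} ∪ ↑(Gam E (u, v) [u]) ⊆
      {S | IsCyc (sE (u, v)) (tE (u, v)) E S} := by
    rintro S (⟨h, he⟩ | h)
    · refine (isCyc_congr _ _ _ _ E S ?_ ?_).1 h
      · intro a ha
        rw [sE_of_ne]
        rintro rfl
        exact he ha
      · intro a ha
        rw [tE_of_ne]
        rintro rfl
        exact he ha
    · exact ((mem_Gam _ _ _ _).1 (Finset.mem_coe.1 h)).1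
  have hfin : ∀ s : Set (Finset (V × V)), s.Finite := fun s => Set.toFinite s
  have h1 : {S | IsCyc Prod.fst Prod.snd E S}.ncard ≤
      {S | IsCyc Prod.fst Prod.snd E S ∧ (u, v) ∉ S}.ncard + (Fam E (u, v) [v]).card := by
    rw [hX]
    refine (Set.ncard_union_le _ _).trans ?_
    rw [Set.ncard_coe_finset]
  have h2 : ({S | IsCyc Prod.fst Prod.snd E S ∧ (u, v) ∉ S} ∪ ↑(Gam E (u, v) [u])).ncard =
      {S | IsCyc Prod.fst Prod.snd E S ∧ (u, v) ∉ S}.ncard + (Gam E (u, v) [u]).card := by
    rw [Set.ncard_union_eq ?_ (hfin _) (hfin _), Set.ncard_coe_finset]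
    rw [Set.disjoint_left]
    rintro S ⟨_, he⟩ h
    exact he ((mem_Gam _ _ _ _).1 (Finset.mem_coe.1 h)).2.1
  have h3 := Set.ncard_le_ncard hY (hfin _)
  have h4 := card_Fam_le nb hnb E (fun x y h => (hE x y).1 h) u v f v [] (by simp) (by simp)
    (by simp; omega)
  have h5 := le_card_Gam_start nb hnb E (fun x y h => (hE x y).2 h) hloop u v huv f
  omega

end general

open Pool.Agent.Lib_helper63.AdamData

/-- The comparison to be checked for the arc `(u, v)`. -/
def Good (u v : Fin 25) : Prop := cntL nb u 25 v [v] + 1 + 50 ≤ cntL nb v 26 u [u]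

lemma good_of_chk (u v : Fin 25) (h : Nat.ble (Nat.add (Nat.succ (cntN u.val 25 (2 ^ 31 + 2 ^ v.val) v.val)) 50)
    (cntN v.val 26 (2 ^ 31 + 2 ^ u.val) u.val) = true) : Good u v := by
  unfold Good
  rw [← cntN_eq u 25 (2 ^ 31 + 2 ^ v.val) [v] v (rep_single v),
    ← cntN_eq v 26 (2 ^ 31 + 2 ^ u.val) [u] u (rep_single u)]
  exact Nat.le_of_ble_eq_true h

lemma good_rot (u : Fin 25) (h : ∀ v ∈ nb u, Good u v) : ∀ v ∈ nb (rot u), Good (rot u) v := by
  intro v hv
  rw [(nb_rot u).mem_iff, List.mem_map] at hv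
  obtain ⟨w, hw, rfl⟩ := hv
  have h1 := h w hw
  unfold Good at h1 ⊢
  have h2 := cntL_map nb rot nb_rot u 25 w [w]
  have h3 := cntL_map nb rot nb_rot w 26 u [u]
  rw [List.map_singleton] at h2 h3
  rw [h2, h3]
  exact h1

lemma good_0_1 : Good 0 1 :=
  good_of_chk 0 1 (by decide +kernel)

lemma good_0_3 : Good 0 3 :=
  good_of_chk 0 3 (by decide +kernel)

lemma good_0_5 : Good 0 5 :=
  good_of_chk 0 5 (by decide +kernel)

lemma good_5_1 : Good 5 1 :=
  good_of_chk 5 1 (by decide +kernel)

lemma good_5_10 : Good 5 10 :=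
  good_of_chk 5 10 (by decide +kernel)

lemma good_10_7 : Good 10 7 :=
  good_of_chk 10 7 (by decide +kernel)

lemma good_10_15 : Good 10 15 :=
  good_of_chk 10 15 (by decide +kernel)

lemma good_15_12 : Good 15 12 :=
  good_of_chk 15 12 (by decide +kernel)

lemma good_15_20 : Good 15 20 :=
  good_of_chk 15 20 (by decide +kernel)

lemma good_20_16 : Good 20 16 :=
  good_of_chk 20 16 (by decide +kernel)

lemma good_20_21 : Good 20 21 :=
  good_of_chk 20 21 (by decide +kernel)

lemma good_20_23 : Good 20 23 :=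
  good_of_chk 20 23 (by decide +kernel)

lemma good_0 : ∀ v ∈ nb 0, Good 0 v := by
  intro v hv
  have h : nb 0 = [1, 3, 5] := by decide +kernel
  rw [h] at hv
  simp only [List.mem_cons, List.not_mem_nil, or_false] at hv
  rcases hv with rfl | rfl | rfl
  · exact good_0_1
  · exact good_0_3
  · exact good_0_5

lemma good_5 : ∀ v ∈ nb 5, Good 5 v := by
  intro v hv
  have h : nb 5 = [1, 10] := by decide +kernel
  rw [h] at hv
  simp only [List.mem_cons, List.not_mem_nil, or_false] at hv
  rcases hv with rfl | rfl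
  · exact good_5_1
  · exact good_5_10

lemma good_10 : ∀ v ∈ nb 10, Good 10 v := by
  intro v hv
  have h : nb 10 = [7, 15] := by decide +kernel
  rw [h] at hv
  simp only [List.mem_cons, List.not_mem_nil, or_false] at hv
  rcases hv with rfl | rfl
  · exact good_10_7
  · exact good_10_15

lemma good_15 : ∀ v ∈ nb 15, Good 15 v := by
  intro v hv
  have h : nb 15 = [12, 20] := by decide +kernel
  rw [h] at hv
  simp only [List.mem_cons, List.not_mem_nil, or_false] at hv
  rcases hv with rfl | rfl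
  · exact good_15_12
  · exact good_15_20

lemma good_20 : ∀ v ∈ nb 20, Good 20 v := by
  intro v hv
  have h : nb 20 = [16, 21, 23] := by decide +kernel
  rw [h] at hv
  simp only [List.mem_cons, List.not_mem_nil, or_false] at hv
  rcases hv with rfl | rfl | rfl
  · exact good_20_16
  · exact good_20_21
  · exact good_20_23

lemma good_iter (u : Fin 25) (h : ∀ v ∈ nb u, Good u v) (j : ℕ) :
    ∀ v ∈ nb (rot^[j] u), Good (rot^[j] u) v := by
  induction j with
  | zero => exact h
  | succ j ih =>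
    rw [Function.iterate_succ_apply']
    exact good_rot _ ih

lemma reps : ∀ u : Fin 25, ∃ j : Fin 5, u = rot^[j.val] 0 ∨ u = rot^[j.val] 5 ∨
    u = rot^[j.val] 10 ∨ u = rot^[j.val] 15 ∨ u = rot^[j.val] 20 := by
  decide +kernel

/-- The comparison holds for every arc. -/
theorem good_all : ∀ u : Fin 25, ∀ v ∈ nb u, Good u v := by
  intro u
  obtain ⟨j, h | h | h | h | h⟩ := reps u
  · rw [h]; exact good_iter 0 good_0 j.val
  · rw [h]; exact good_iter 5 good_5 j.val
  · rw [h]; exact good_iter 10 good_10 j.val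
  · rw [h]; exact good_iter 15 good_15 j.val
  · rw [h]; exact good_iter 20 good_20 j.val

end Pool.Agent.Lib_helper22.Adam
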