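import Pool.Agent.Lib_helper22.Adam.Defs
import Pool.Agent.Lib_helper63.AdamCount

/-!
# Directed cycles are the minimal nonempty balanced arc sets
-/

set_option autoImplicit false

namespace Pool.Agent.Lib_helper22.Adam

open Pool.Agent.Lib_helper63.AdamCount

section

variable {V B : Type} [DecidableEq V] [DecidableEq B] (s t : B → V)

/-- the closed walk `a` with distinct vertices `v` -/
def Walk (k : ℕ) (v : ℕ → V) (a : ℕ → B) : Prop :=
  (∀ i j, i < k → j < k → v i = v j → i = j) ∧ v k = v 0 ∧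
    ∀ i, i < k → s (a i) = v i ∧ t (a i) = v (i + 1)

variable {s t}

theorem Walk.inj {k : ℕ} {v : ℕ → V} {a : ℕ → B} (h : Walk s t k v a) :
    ∀ i j, i < k → j < k → a i = a j → i = j := by
  intro i j hi hj hij
  apply h.1 i j hi hj
  rw [← (h.2.2 i hi).1, ← (h.2.2 j hj).1, hij]

theorem Walk.bal {k : ℕ} {v : ℕ → V} {a : ℕ → B} (h : Walk s t k v a) :
    Bal s t ((Finset.range k).image a) := by
  intro x
  have hinj : Set.InjOn a (Finset.range k : Set ℕ) := by
    intro i hi j hj hij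
    exact h.inj i j (Finset.mem_range.1 hi) (Finset.mem_range.1 hj) hij
  rw [Finset.card_filter, Finset.card_filter, Finset.sum_image hinj, Finset.sum_image hinj]
  have h1 : ∑ i ∈ Finset.range k, (if s (a i) = x then 1 else 0) =
      ∑ i ∈ Finset.range k, (if v i = x then 1 else 0) := by
    refine Finset.sum_congr rfl fun i hi => ?_
    rw [(h.2.2 i (Finset.mem_range.1 hi)).1]
  have h2 : ∑ i ∈ Finset.range k, (if t (a i) = x then 1 else 0) =
      ∑ i ∈ Finset.range k, (if v (i + 1) = x then 1 else 0) := by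
    refine Finset.sum_congr rfl fun i hi => ?_
    rw [(h.2.2 i (Finset.mem_range.1 hi)).2]
  rw [h1, h2]
  have h3 := Finset.sum_range_succ (fun i => if v i = x then 1 else 0) k
  have h4 := Finset.sum_range_succ' (fun i => if v i = x then 1 else 0) k
  simp only [h.2.1] at h3
  omega

theorem Walk.min {k : ℕ} {v : ℕ → V} {a : ℕ → B} (h : Walk s t k v a)
    (T : Finset B) (hT : T ⊆ (Finset.range k).image a) (hn : T.Nonempty) (hb : Bal s t T) :
    T = (Finset.range k).image a := by
  have hmem : ∀ b ∈ T, ∃ i, i < k ∧ a i = b := by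
    intro b hb
    obtain ⟨i, hi, rfl⟩ := Finset.mem_image.1 (hT hb)
    exact ⟨i, Finset.mem_range.1 hi, rfl⟩
  have hnext : ∀ i, i < k → a i ∈ T → ∃ j, j < k ∧ v j = v (i + 1) ∧ a j ∈ T := by
    intro i hi hiT
    obtain ⟨c, hc, hcs⟩ := exists_out s t T hb (a i) hiT
    obtain ⟨j, hj, rfl⟩ := hmem c hc
    refine ⟨j, hj, ?_, hc⟩
    rw [← (h.2.2 j hj).1, hcs, (h.2.2 i hi).2]
  have hstep : ∀ i, i + 1 < k → a i ∈ T → a (i + 1) ∈ T := by
    intro i hi hiT
    obtain ⟨j, hj, h1, h2⟩ := hnext i (by omega) hiT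
    rw [← h.1 j (i + 1) hj hi h1]
    exact h2
  have hup : ∀ d i, i + d < k → a i ∈ T → a (i + d) ∈ T := by
    intro d
    induction d with
    | zero => intro i _ h; exact h
    | succ d ih =>
      intro i hi h1
      exact hstep (i + d) (by omega) (ih i (by omega) h1)
  obtain ⟨b, hbT⟩ := hn
  obtain ⟨i, hi, rfl⟩ := hmem b hbT
  have hl : a (k - 1) ∈ T := by
    have := hup (k - 1 - i) i (by omega) hbT
    rwa [show i + (k - 1 - i) = k - 1 by omega] at this
  have h0 : a 0 ∈ T := by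
    obtain ⟨j, hj, h1, h2⟩ := hnext (k - 1) (by omega) hl
    rw [show k - 1 + 1 = k by omega, h.2.1] at h1
    rw [← h.1 j 0 hj (by omega) h1]
    exact h2
  apply Finset.Subset.antisymm hT
  intro c hc
  obtain ⟨j, hj, rfl⟩ := Finset.mem_image.1 hc
  have := hup j 0 (by rw [zero_add]; exact Finset.mem_range.1 hj) h0
  rwa [zero_add] at this

/-- Minimal nonempty balanced sets of arcs are directed cycles. -/
theorem isCyc_iff (E S : Finset B) (hloop : ∀ b ∈ E, s b ≠ t b) :
    IsCyc s t E S ↔ ∃ (k : ℕ) (v : ℕ → V) (a : ℕ → B), 2 ≤ k ∧ Walk s t k v a ∧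
      (∀ i, i < k → a i ∈ E) ∧ S = (Finset.range k).image a := by
  constructor
  · rintro ⟨hSE, ⟨b₀, hb₀⟩, hbal, hmin⟩
    have hout : ∀ b : {b // b ∈ S}, ∃ c : {b // b ∈ S}, s c = t b := by
      intro b
      obtain ⟨c, hc, hcs⟩ := exists_out s t S hbal b b.2
      exact ⟨⟨c, hc⟩, hcs⟩
    choose nx hnx using hout
    let b : ℕ → {b // b ∈ S} := fun i => nx^[i] ⟨b₀, hb₀⟩
    have hb : ∀ i, s (b (i + 1)) = t (b i) := by
      intro i
      have : b (i + 1) = nx (b i) := Function.iterate_succ_apply' nx i _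
      rw [this, hnx]
    obtain ⟨i₀, j₀, hne, heq⟩ := Finite.exists_ne_map_eq_of_infinite b
    have hex : ∃ j i, i < j ∧ s (b i) = s (b j) := by
      rcases lt_or_gt_of_ne hne with h | h
      · exact ⟨j₀, i₀, h, by rw [heq]⟩
      · exact ⟨i₀, j₀, h, by rw [heq]⟩
    classical
    obtain ⟨i, hij, hvij⟩ := Nat.find_spec hex
    set j := Nat.find hex with hj
    have hinj : ∀ l m, l < j → m < j → s (b l) = s (b m) → l = m := by
      intro l m hl hm hlm
      by_contra hcon
      rcases lt_or_gt_of_ne hcon with h | h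
      · exact Nat.find_min hex hm ⟨l, h, hlm⟩
      · exact Nat.find_min hex hl ⟨m, h, hlm.symm⟩
    have hw : Walk s t (j - i) (fun m => s (b (i + m))) (fun m => (b (i + m) : B)) := by
      refine ⟨?_, ?_, ?_⟩
      · intro l m hl hm hlm
        have := hinj (i + l) (i + m) (by omega) (by omega) hlm
        omega
      · simp only [add_zero]
        rw [show i + (j - i) = j by omega]
        exact hvij.symm
      · intro m _
        exact ⟨rfl, (hb (i + m)).symm⟩
    have hk : 2 ≤ j - i := by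
      by_contra hcon
      have h1 : j = i + 1 := by omega
      apply hloop (b i) (hSE (b i).2)
      rw [← hb i, ← h1, ← hvij]
    refine ⟨j - i, _, _, hk, hw, fun m _ => hSE (b (i + m)).2, ?_⟩
    refine (hmin _ ?_ ?_ hw.bal).symm
    · intro c hc
      obtain ⟨m, _, rfl⟩ := Finset.mem_image.1 hc
      exact (b (i + m)).2
    · exact ⟨_, Finset.mem_image.2 ⟨0, Finset.mem_range.2 (by omega), rfl⟩⟩
  · rintro ⟨k, v, a, hk, hw, haE, rfl⟩
    refine ⟨?_, ⟨a 0, Finset.mem_image.2 ⟨0, Finset.mem_range.2 (by omega), rfl⟩⟩, hw.bal,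
      fun T hT hn hb => hw.min T hT hn hb⟩
    intro c hc
    obtain ⟨i, hi, rfl⟩ := Finset.mem_image.1 hc
    exact haE i (Finset.mem_range.1 hi)

end

section transfer

variable {V B : Type} [DecidableEq V] [DecidableEq B] {s t : B → V} (E : Finset B)

open Classical in
/-- a set of arcs of the subtype as a finite set -/
noncomputable def Phi (S : Set {b // b ∈ E}) : Finset B :=
  (Finset.univ.filter fun b : {b // b ∈ E} => b ∈ S).image Subtype.val

theorem mem_Phi (S : Set {b // b ∈ E}) (b : B) : b ∈ Phi E S ↔ ∃ h : b ∈ E, (⟨b, h⟩ : {b // b ∈ E}) ∈ S := by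
  classical
  unfold Phi
  rw [Finset.mem_image]
  constructor
  · rintro ⟨⟨c, hc⟩, h1, rfl⟩
    exact ⟨hc, (Finset.mem_filter.1 h1).2⟩
  · rintro ⟨h, h1⟩
    exact ⟨⟨b, h⟩, Finset.mem_filter.2 ⟨Finset.mem_univ _, h1⟩, rfl⟩

theorem Phi_inj : Function.Injective (Phi E) := by
  intro S T h
  ext ⟨b, hb⟩
  have h1 : b ∈ Phi E S ↔ b ∈ Phi E T := by rw [h]
  rw [mem_Phi, mem_Phi] at h1
  constructor
  · intro h2
    exact (h1.1 ⟨hb, h2⟩).2
  · intro h2
    exact (h1.2 ⟨hb, h2⟩).2

/-- the number of the directed cycles as a number of finite sets -/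
theorem c_eq (D : DGraph V {b // b ∈ E}) (hs : ∀ b, D.tail b = s b) (ht : ∀ b, D.head b = t b)
    (hloop : ∀ b ∈ E, s b ≠ t b) : D.c = {S | IsCyc s t E S}.ncard := by
  have h1 : {S | IsCyc s t E S} = Phi E '' {S | D.IsCycle S} := by
    ext T
    rw [Set.mem_ofPred_eq, isCyc_iff E T hloop]
    constructor
    · rintro ⟨k, v, a, hk, hw, haE, rfl⟩
      let a' : ℕ → {b // b ∈ E} := fun i =>
        if h : i < k then ⟨a i, haE i h⟩ else ⟨a 0, haE 0 (by omega)⟩
      have ha' : ∀ i, i < k → (a' i : B) = a i := by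
        intro i hi
        simp only [a', dif_pos hi]
      refine ⟨{b | ∃ i, i < k ∧ a' i = b}, ⟨k, v, a', hk, hw.1, hw.2.1, ?_, rfl⟩, ?_⟩
      · intro i hi
        rw [hs, ht, ha' i hi]
        exact hw.2.2 i hi
      · ext c
        rw [mem_Phi, Finset.mem_image]
        constructor
        · rintro ⟨h, i, hi, hc⟩
          refine ⟨i, Finset.mem_range.2 hi, ?_⟩
          rw [← ha' i hi, hc]
        · rintro ⟨i, hi, rfl⟩
          have hi' := Finset.mem_range.1 hi
          exact ⟨haE i hi', i, hi', Subtype.ext (ha' i hi')⟩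
    · rintro ⟨S, ⟨k, v, a, hk, hinj, hv, ha, rfl⟩, rfl⟩
      refine ⟨k, v, fun i => a i, hk, ⟨hinj, hv, ?_⟩, fun i _ => (a i).2, ?_⟩
      · intro i hi
        have := ha i hi
        rw [hs, ht] at this
        exact this
      · ext c
        rw [mem_Phi, Finset.mem_image]
        constructor
        · rintro ⟨h, i, hi, hc⟩
          exact ⟨i, Finset.mem_range.2 hi, by rw [hc]⟩
        · rintro ⟨i, hi, rfl⟩
          exact ⟨(a i).2, i, Finset.mem_range.1 hi, rfl⟩
  rw [h1, Set.ncard_image_of_injective _ (Phi_inj E)]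
  rfl

end transfer

end Pool.Agent.Lib_helper22.Adam
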