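import Mathlib

/-!
# Digraphs, directed cycles and the reversal of an arc
-/

set_option autoImplicit false

namespace Pool.Agent.Lib_helper22.Adam

variable {V A : Type}

/-- A digraph with the vertex set `V` and the arc set `A`; each arc has a tail and a head. Loops and
parallel arcs are allowed. -/
structure DGraph (V A : Type) where
  /-- the tail of an arc -/
  tail : A → V
  /-- the head of an arc -/
  head : A → V

/-- The digraph is strict: it has no loops and no two arcs with the same tail and the same head. -/
def DGraph.Strict (D : DGraph V A) : Prop :=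
  (∀ a, D.tail a ≠ D.head a) ∧ ∀ a b, D.tail a = D.tail b → D.head a = D.head b → a = b

/-- The digraph has no two opposite arcs `uv` and `vu`. -/
def DGraph.NoOpposite (D : DGraph V A) : Prop :=
  ∀ a b, ¬ (D.tail a = D.head b ∧ D.head a = D.tail b)

/-- `S` is the set of the arcs of a directed cycle: there are `k ≥ 2` distinct vertices
`v 0, …, v (k - 1)`, with `v k = v 0`, and arcs `a i` from `v i` to `v (i + 1)` for `i < k`, such
that `S = {a 0, …, a (k - 1)}`. -/
def DGraph.IsCycle (D : DGraph V A) (S : Set A) : Prop :=
  ∃ (k : ℕ) (v : ℕ → V) (a : ℕ → A), 2 ≤ k ∧ (∀ i j, i < k → j < k → v i = v j → i = j) ∧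
    v k = v 0 ∧ (∀ i, i < k → D.tail (a i) = v i ∧ D.head (a i) = v (i + 1)) ∧
    S = {b | ∃ i, i < k ∧ a i = b}

/-- The number of the directed cycles of the digraph. -/
noncomputable def DGraph.c (D : DGraph V A) : ℕ := {S : Set A | D.IsCycle S}.ncard

open Classical in
/-- The digraph obtained by the reversal of the arc `a`. -/
noncomputable def DGraph.reverse (D : DGraph V A) (a : A) : DGraph V A where
  tail b := if b = a then D.head a else D.tail b
  head b := if b = a then D.tail a else D.head b

end Pool.Agent.Lib_helper22.Adam
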